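import Mathlib

set_option autoImplicit false

namespace Pool.Agent.Results.MP_369736_co.FourPartsThreeFactors

open SimpleGraph

/-- The complete `r`-partite graph `K(n₀, …, n_{r-1})`: its vertex set is the disjoint union of
parts of sizes `n₀, …, n_{r-1}`, and two vertices are adjacent exactly when they lie in different
parts. -/
abbrev K {r : ℕ} (n : Fin r → ℕ) : SimpleGraph (Σ i : Fin r, Fin (n i)) :=
  completeMultipartiteGraph fun i => Fin (n i)

/-- The spanning subgraphs `F 0, …, F (t - 1)` form an isomorphic factorisation of `G` into `t`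
factors: their edge sets partition the edge set of `G`, and they are pairwise isomorphic. -/
def IsIsoFactorisation {V : Type} (G : SimpleGraph V) (t : ℕ) (F : Fin t → SimpleGraph V) : Prop :=
  (∀ e, e ∈ G.edgeSet ↔ ∃ k, e ∈ (F k).edgeSet) ∧
  (∀ k l, k ≠ l → Disjoint (F k).edgeSet (F l).edgeSet) ∧
  ∀ k l, Nonempty (F k ≃g F l)

/-- `G` is divisible by `t`: it has an isomorphic factorisation into `t` factors. -/
def Divisible {V : Type} (G : SimpleGraph V) (t : ℕ) : Prop :=
  ∃ F : Fin t → SimpleGraph V, IsIsoFactorisation G t F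

/-- The Divisibility Condition is sufficient for `(r, t)`: every complete `r`-partite graph with
nonempty parts whose number of edges is a multiple of `t` is divisible by `t`. -/
def ConditionSufficient (r t : ℕ) : Prop :=
  ∀ n : Fin r → ℕ, (∀ i, 1 ≤ n i) → t ∣ (K n).edgeSet.ncard → Divisible (K n) t

/-- Finite data describing factorisations of an infinite family of complete 4-partite graphs:
sizes of the fixed parts, which parts are extended by blocks of three vertices, offsets, number of
vertices, colour matrix in base 4, and three vertex maps in base 64. -/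
structure Fam where
  R : List ℕ
  E : List Bool
  o : List ℕ
  m : ℕ
  M : ℕ
  P : List ℕ

namespace Fam

variable (f : Fam)

def r (i : Fin 4) : ℕ := f.R.getD i 0

def e (i : Fin 4) : Bool := f.E.getD i false

def S (i : Fin 4) : ℕ := f.r i + if f.e i then 3 else 0

def ix (u : Fin 4 × ℕ) : ℕ := f.o.getD u.1 0 + u.2

def col (u v : Fin 4 × ℕ) : ℕ := f.M / 4 ^ (f.m * f.ix u + f.ix v) % 4

def code (k : Fin 3) (u : Fin 4 × ℕ) : ℕ := f.P.getD k 0 / 64 ^ f.ix u % 64

def psi (k : Fin 3) (u : Fin 4 × ℕ) : Fin 4 × ℕ :=
  if u.2 < f.r u.1 then (Fin.ofNat 4 (f.code k u / 16), f.code k u % 16)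
  else (u.1, f.r u.1 + (u.2 - f.r u.1 + k) % 3)

def G1 : Prop :=
  ∀ i j : Fin 4, ∀ x < f.S i, ∀ y < f.S j, f.col (i, x) (j, y) = f.col (j, y) (i, x)

def G2 : Prop := ∀ i j : Fin 4, i ≠ j → ∀ x < f.S i, ∀ y < f.S j, f.col (i, x) (j, y) < 3

def G3 : Prop :=
  ∀ k : Fin 3, ∀ i : Fin 4, ∀ x < f.r i, (f.psi k (i, x)).2 < f.r (f.psi k (i, x)).1

def G4 : Prop :=
  ∀ k : Fin 3, ∀ i j : Fin 4, ∀ x < f.r i, ∀ y < f.r j,
    f.psi k (i, x) = f.psi k (j, y) → (i, x) = (j, y)

def G5 : Prop :=
  ∀ k : Fin 3, ∀ i j : Fin 4, ∀ x < f.S i, ∀ y < f.S j,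
    (i ≠ j ∧ f.col (i, x) (j, y) = 0) ↔
    ((f.psi k (i, x)).1 ≠ (f.psi k (j, y)).1 ∧ f.col (f.psi k (i, x)) (f.psi k (j, y)) = k)

instance : Decidable f.G1 := by unfold G1; infer_instance

instance : Decidable f.G2 := by unfold G2; infer_instance

instance : Decidable f.G3 := by unfold G3; infer_instance

instance : Decidable f.G4 := by unfold G4; infer_instance

instance : Decidable f.G5 := by unfold G5; infer_instance

def Good : Prop := f.G1 ∧ f.G2 ∧ f.G3 ∧ f.G4 ∧ f.G5

instance : Decidable f.Good := by unfold Good; infer_instance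

end Fam

def fams : List Fam := [
  ⟨[0, 0, 0, 0], [true, true, true, true], [0, 3, 6, 9], 12,
    493992959385803203909714011227685174439144767431755165183992513684418509902395622817855,
    [0,
      0,
      0]⟩,
  ⟨[1, 0, 0, 0], [true, true, true, true], [0, 4, 7, 10], 13,
    556186618777306694109637410019432410112952827269958228889217157906231233264995832058853021437208896767,
    [0,
      0,
      0]⟩,
  ⟨[2, 0, 0, 0], [true, true, true, true], [0, 5, 8, 11], 14,
    10019367359473945741646117752418944613443885665566362255089239610444663845656940301893008809890301773797299320130933759,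
    [64,
      64,
      64]⟩,
  ⟨[1, 1, 1, 3], [true, false, false, true], [0, 4, 8, 12], 18,
    1167983673645411023145184469219119766321163451237192952880348041655966453026380021705194481024478241829289590922197372627140541126459362918434341812419212324878255970928085572822150098572067863807,
    [982176670582167489648525312,
      981949996995493346574073872,
      962909415327555738086146080]⟩,
  ⟨[1, 4, 4, 3], [true, true, true, true], [0, 4, 11, 18], 24,
    61165857912739221867724905290308592698509028706617334510412802386858877591943563887053228086593489574632223726463876386553905200934284489229167287150681183264041524226851556842060632349625605106392558505275595049085712396505910017333264325146653258824944296135689113363848627270590635070363055965337312205588112703703446316903568292578460623873279,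
    [67494666864781656870996099420823486464,
      66830377385423208774927366027026104338,
      67458320786751976500684298384268328993]⟩,
  ⟨[1, 1, 1, 1], [false, false, true, true], [0, 4, 8, 12], 16,
    13385096381970489932296023224903964858690478623932320794576178607410701945709049611360929449500279261013484177541509503244175658763974190216024826832813823,
    [226673600184942493433856,
      151115731955428274208816,
      226673591177743507128336]⟩,
  ⟨[1, 4, 4, 4], [true, true, true, true], [0, 4, 11, 18], 25,
    19385768520278400861631964775987418149887424956819388139544476680356231251526056627503229424523003741234347352539671756452042804992103492944569694582581716785877962863452580977044167340541672613842527171734990071365163448009020977848951569139626392561487310329769641069570356330481530704364021358280262242563675358260075234446816189990631841466259320308157632978174363979893503,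
    [4406094845106747066029022344175868182528,
      4109386557941166883503475598185317007410,
      4193107801524631889419004912051180011536]⟩,
  ⟨[1, 1, 1, 2], [false, false, true, true], [0, 4, 8, 12], 17,
    988910199704380379649881845312315639635847031861181564208928894767606918253809955749504632568260224623927274123011487153204279794729740143883548136634415939047795257107414271,
    [15036014890464149883584512,
      14960457022234635664359472,
      15036014881456950897278992]⟩,
  ⟨[1, 4, 4, 2], [true, true, true, true], [0, 4, 11, 18], 23,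
    3087099955806670911595061538016489245836968894191042655329656413081363276777023292693005782307713751425193602944744505078081645072350924208787619191700665923793548303121188978457822300913650473841079796797992396956869010217166922681862598739070190795947766301777659282922169517441713872156783712707291330111172137065215,
    [1033267075535863225805746406806257664,
      1007954628021371385721155244976504851,
      15901409449488941999219169409630225]⟩,
  ⟨[2, 2, 2, 3], [true, true, true, true], [0, 5, 10, 15], 21,
    32241161025737491083704719342834328110555729919618742761866080886698346291227055448339074405646229144940681948139527907891566608702768074240857828786807316313134259595220104709329875146782901601445495268196235252119735100927984665390746867283083982590027609196021759,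
    [257471721133202394801681943494720,
      164933227314070937707982490700914,
      82535938301634103342528513182849]⟩,
  ⟨[2, 2, 2, 4], [true, true, true, true], [0, 5, 10, 15], 22,
    2494734447240825165334916618502228026250150971881198463880625126944321146814688960475578745540322245434707982424634151323447504349302943000515313619613510533799211167041058619681405560091528151501030097166997162256419838960758171225839362274891443823243478777328521018942222729753842065344511,
    [16807917957712965460742638992883776,
      16806532702810186864757214531289089,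
      16485895091173627380128156091419760]⟩,
  ⟨[2, 5, 5, 1], [true, true, true, false], [0, 5, 13, 21], 25,
    19386284415916351754079089178450564925773557736054544885971871128538799717487650360480428187406624582788181161262978206927238848316109557680774978019062610936400521042636220281668072999595999136659363257441906455106298619132357551660815408539654918020681127144863443798611238285713464268408295116488579923836057779991528667168576171234769641722436891025130011020319406937211903,
    [4083388588408671628000163007409726423104,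
      1446200239778805700533842984458940055600,
      1616341488998612040173048683423235836161]⟩,
  ⟨[2, 2, 2, 1], [true, false, false, false], [0, 5, 10, 15], 19,
    22062609052407949194914912829723655182387815895640105833651151274786427052797918788817140285308541010284300791281712748908658430420790336404105833077741048767077859305052755019525513158799653796314424234545249057228799,
    [59421124357561960257648853056,
      1237943600659909140394543104,
      1235931855240642429009]⟩,
  ⟨[2, 2, 2, 2], [true, true, true, true], [0, 5, 10, 15], 20,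
    6665175526647919371632948591189764166931016695188683898547907561790208106078500324014769582365668012947331345336258216407952966176523935892513419382344773532548563724869935820587178805648699039132242668592855543359636396297014076074996623359,
    [3941601087556514502341302419520,
      1237942438515034780541650000,
      2576153222989961129825012809729]⟩]

theorem fams_good : ∀ f ∈ fams, f.Good := by decide +kernel

/-- reduction of a vertex modulo the blocks -/
def red (R x : ℕ) : ℕ := if x < R then x else R + (x - R) % 3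

section fam

variable {f : Fam} {a : Fin 4 → ℕ}

abbrev sz (f : Fam) (a : Fin 4 → ℕ) (i : Fin 4) : ℕ := f.r i + 3 * a i

abbrev VT (f : Fam) (a : Fin 4 → ℕ) : Type := Σ i : Fin 4, Fin (sz f a i)

def pr (v : VT f a) : Fin 4 × ℕ := (v.1, (v.2 : ℕ))

def rdp (f : Fam) (u : Fin 4 × ℕ) : Fin 4 × ℕ := (u.1, red (f.r u.1) u.2)

theorem pr_lt (v : VT f a) : (pr v).2 < f.r (pr v).1 + 3 * a (pr v).1 := v.2.isLt

theorem rd_lt (ha : ∀ i, f.e i = false → a i = 0) (v : VT f a) :
    (rdp f (pr v)).2 < f.S (pr v).1 := by
  have hx := pr_lt v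
  generalize pr v = p at hx ⊢
  obtain ⟨i, x⟩ := p
  simp only [rdp, red, Fam.S] at hx ⊢
  cases h : f.e i
  · rw [ha i h] at hx
    have hx' : x < f.r i := by omega
    simp [hx']
  · simp only [if_true]
    split_ifs <;> omega

theorem pr_inj {u v : VT f a} (h : pr u = pr v) : u = v := by
  obtain ⟨i, x⟩ := u
  obtain ⟨j, y⟩ := v
  simp only [pr, Prod.mk.injEq] at h
  obtain ⟨h1, h2⟩ := h
  subst h1
  have : x = y := Fin.ext h2
  rw [this]

def Fk (f : Fam) (a : Fin 4 → ℕ) (hg : f.Good) (ha : ∀ i, f.e i = false → a i = 0) (k : Fin 3) :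
    SimpleGraph (VT f a) :=
  SimpleGraph.mk (fun u v => (pr u).1 ≠ (pr v).1 ∧ f.col (rdp f (pr u)) (rdp f (pr v)) = k)
    ⟨by
      rintro u v ⟨h1, h2⟩
      refine ⟨h1.symm, ?_⟩
      rw [← h2]
      exact (hg.1 (pr u).1 (pr v).1 _ (rd_lt ha u) _ (rd_lt ha v)).symm⟩
    ⟨fun u h => h.1 rfl⟩

def phi (f : Fam) (a : Fin 4 → ℕ) (hg : f.Good) (k : Fin 3) (v : VT f a) : VT f a :=
  if h : (pr v).2 < f.r (pr v).1 then
    ⟨(f.psi k (pr v)).1, ⟨(f.psi k (pr v)).2, by
      have := hg.2.2.1 k (pr v).1 (pr v).2 h
      simp only [sz]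
      exact lt_of_lt_of_le this (Nat.le_add_right _ _)⟩⟩
  else
    ⟨(pr v).1, ⟨f.r (pr v).1 + 3 * (((pr v).2 - f.r (pr v).1) / 3) +
      (((pr v).2 - f.r (pr v).1) % 3 + k) % 3, by
      have := pr_lt v
      simp only [sz]
      omega⟩⟩

theorem phi_pos (hg : f.Good) (k : Fin 3) (v : VT f a) (h : (pr v).2 < f.r (pr v).1) :
    pr (phi f a hg k v) = f.psi k (pr v) := by
  unfold phi
  rw [dif_pos h]
  rfl

theorem phi_neg (hg : f.Good) (k : Fin 3) (v : VT f a) (h : ¬ (pr v).2 < f.r (pr v).1) :
    pr (phi f a hg k v) = ((pr v).1, f.r (pr v).1 + 3 * (((pr v).2 - f.r (pr v).1) / 3) +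
      (((pr v).2 - f.r (pr v).1) % 3 + k) % 3) := by
  unfold phi
  rw [dif_neg h]
  rfl

theorem phi_inj (hg : f.Good) (k : Fin 3) : Function.Injective (phi f a hg k) := by
  intro u v huv
  have e1 : pr (phi f a hg k u) = pr (phi f a hg k v) := by rw [huv]
  apply pr_inj
  have hkl := k.isLt
  by_cases hu : (pr u).2 < f.r (pr u).1 <;> by_cases hv : (pr v).2 < f.r (pr v).1
  · rw [phi_pos hg k u hu, phi_pos hg k v hv] at e1
    exact hg.2.2.2.1 k (pr u).1 (pr v).1 _ hu _ hv e1
  · exfalso
    rw [phi_pos hg k u hu, phi_neg hg k v hv] at e1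
    have h1 := hg.2.2.1 k (pr u).1 _ hu
    rw [Prod.mk.eta, e1] at h1
    simp only at h1
    omega
  · exfalso
    rw [phi_neg hg k u hu, phi_pos hg k v hv] at e1
    have h1 := hg.2.2.1 k (pr v).1 _ hv
    rw [Prod.mk.eta, ← e1] at h1
    simp only at h1
    omega
  · rw [phi_neg hg k u hu, phi_neg hg k v hv] at e1
    generalize pr u = p at *
    generalize pr v = q at *
    obtain ⟨i, x⟩ := p
    obtain ⟨j, y⟩ := q
    simp only [Prod.mk.injEq] at e1 hu hv ⊢
    obtain ⟨rfl, e2⟩ := e1
    exact ⟨rfl, by omega⟩

theorem rd_phi (hg : f.Good) (k : Fin 3) (v : VT f a) :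
    rdp f (pr (phi f a hg k v)) = f.psi k (rdp f (pr v)) := by
  have hkl := k.isLt
  by_cases h : (pr v).2 < f.r (pr v).1
  · rw [phi_pos hg k v h]
    have h1 := hg.2.2.1 k (pr v).1 _ h
    rw [Prod.mk.eta] at h1
    have h2 : rdp f (pr v) = pr v := by
      unfold rdp red
      rw [if_pos h]
    rw [h2]
    unfold rdp red
    rw [if_pos h1]
  · rw [phi_neg hg k v h]
    generalize pr v = p at *
    obtain ⟨i, x⟩ := p
    simp only at h
    have h3 : ¬ f.r i + (x - f.r i) % 3 < f.r i := by omega
    have h4 : ¬ f.r i + 3 * ((x - f.r i) / 3) + ((x - f.r i) % 3 + k) % 3 < f.r i := by omega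
    simp only [rdp, red, if_neg h, if_neg h4, Fam.psi, if_neg h3, Prod.mk.injEq, true_and]
    omega

noncomputable def phiE (f : Fam) (a : Fin 4 → ℕ) (hg : f.Good) (k : Fin 3) : VT f a ≃ VT f a :=
  Equiv.ofBijective (phi f a hg k) (Finite.injective_iff_bijective.1 (phi_inj hg k))

theorem fk_iso (hg : f.Good) (ha : ∀ i, f.e i = false → a i = 0) (k : Fin 3) :
    Nonempty (Fk f a hg ha 0 ≃g Fk f a hg ha k) := by
  refine ⟨⟨phiE f a hg k, ?_⟩⟩
  intro u v
  have h := hg.2.2.2.2 k (pr u).1 (pr v).1 _ (rd_lt ha u) _ (rd_lt ha v)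
  have eu : (((pr u).1, (rdp f (pr u)).2) : Fin 4 × ℕ) = rdp f (pr u) := rfl
  have ev : (((pr v).1, (rdp f (pr v)).2) : Fin 4 × ℕ) = rdp f (pr v) := rfl
  rw [eu, ev, ← rd_phi hg k u, ← rd_phi hg k v] at h
  exact h.symm

theorem fam_divisible (hg : f.Good) (ha : ∀ i, f.e i = false → a i = 0) :
    Divisible (K (sz f a)) 3 := by
  refine ⟨Fk f a hg ha, ?_, ?_, ?_⟩
  · intro e
    induction e using Sym2.ind with
    | _ u v =>
      simp only [SimpleGraph.mem_edgeSet]
      constructor
      · intro h
        have h' : u.1 ≠ v.1 := by simpa using h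
        have := hg.2.1 (pr u).1 (pr v).1 h' _ (rd_lt ha u) _ (rd_lt ha v)
        exact ⟨⟨_, this⟩, h', rfl⟩
      · rintro ⟨k, h1, -⟩
        exact h1
  · intro k l hkl
    rw [Set.disjoint_left]
    intro e
    induction e using Sym2.ind with
    | _ u v =>
      simp only [SimpleGraph.mem_edgeSet]
      rintro ⟨-, h1⟩ ⟨-, h2⟩
      exact hkl (Fin.ext (h1.symm.trans h2))
  · intro k l
    obtain ⟨e1⟩ := fk_iso hg ha k
    obtain ⟨e2⟩ := fk_iso hg ha l
    exact ⟨e1.symm.trans e2⟩

end fam

theorem divisible_of_iso {V W : Type} {G : SimpleGraph V} {H : SimpleGraph W} {t : ℕ}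
    (e : G ≃g H) (h : Divisible G t) : Divisible H t := by
  obtain ⟨F, h1, h2, h3⟩ := h
  refine ⟨fun k => (F k).comap e.symm, ?_, ?_, ?_⟩
  · intro x
    induction x using Sym2.ind with
    | _ u v =>
      have := h1 s(e.symm u, e.symm v)
      simp only [SimpleGraph.mem_edgeSet] at this ⊢
      rw [← e.symm.map_adj_iff, this]
      rfl
  · intro k l hkl
    rw [Set.disjoint_left]
    intro x
    induction x using Sym2.ind with
    | _ u v =>
      intro hk hl
      have hk' : s(e.symm u, e.symm v) ∈ (F k).edgeSet := hk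
      have hl' : s(e.symm u, e.symm v) ∈ (F l).edgeSet := hl
      exact Set.disjoint_left.1 (h2 k l hkl) hk' hl'
  · intro k l
    obtain ⟨ψ⟩ := h3 k l
    refine ⟨⟨(e.symm.toEquiv.trans ψ.toEquiv).trans e.toEquiv, ?_⟩⟩
    intro u v
    simp [SimpleGraph.comap_adj, ψ.map_adj_iff]

theorem divisible_perm (n : Fin 4 → ℕ) (s : Fin 4 → Fin 4) (hs : Function.Injective s)
    (h : Divisible (K fun i => n (s i)) 3) : Divisible (K n) 3 := by
  let σ : Fin 4 ≃ Fin 4 := Equiv.ofBijective s (Finite.injective_iff_bijective.1 hs)
  refine divisible_of_iso ⟨Equiv.sigmaCongrLeft (β := fun i => Fin (n i)) σ, ?_⟩ h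
  intro u v
  obtain ⟨i, x⟩ := u
  obtain ⟨j, y⟩ := v
  change s i ≠ s j ↔ i ≠ j
  exact not_congr hs.eq_iff

def perms : List (Fin 4 → Fin 4) := [
  ![0, 1, 2, 3], ![0, 1, 3, 2], ![0, 2, 1, 3], ![0, 2, 3, 1], ![0, 3, 1, 2], ![0, 3, 2, 1],
  ![1, 0, 2, 3], ![1, 0, 3, 2], ![1, 2, 0, 3], ![1, 2, 3, 0], ![1, 3, 0, 2], ![1, 3, 2, 0],
  ![2, 0, 1, 3], ![2, 0, 3, 1], ![2, 1, 0, 3], ![2, 1, 3, 0], ![2, 3, 0, 1], ![2, 3, 1, 0],
  ![3, 0, 1, 2], ![3, 0, 2, 1], ![3, 1, 0, 2], ![3, 1, 2, 0], ![3, 2, 0, 1], ![3, 2, 1, 0]]

theorem perms_inj : ∀ s ∈ perms, Function.Injective s := by decide +kernel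

def Fits (f : Fam) (s : Fin 4 → Fin 4) (b : Fin 4 → ℕ) : Prop :=
  ∀ i : Fin 4, (f.e i = true ∧ f.r i ≤ b (s i) ∧ (b (s i) - f.r i) % 3 = 0) ∨
    (f.e i = false ∧ b (s i) = f.r i ∧ b (s i) ≤ 2)

instance (f : Fam) (s : Fin 4 → Fin 4) (b : Fin 4 → ℕ) : Decidable (Fits f s b) := by
  unfold Fits
  infer_instance

theorem cover : ∀ b0 b1 b2 b3 : Fin 5,
    ((b0 + 1) * (b1 + 1) + (b0 + 1) * (b2 + 1) + (b0 + 1) * (b3 + 1) + (b1 + 1) * (b2 + 1)
      + (b1 + 1) * (b3 + 1) + (b2 + 1) * (b3 + 1) : ℕ) % 3 = 0 →
    ∃ f ∈ fams, ∃ s ∈ perms,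
      Fits f s ![(b0 + 1 : ℕ), (b1 + 1 : ℕ), (b2 + 1 : ℕ), (b3 + 1 : ℕ)] := by
  decide +kernel

/-- number of edges of the complete 4-partite graph -/
theorem card_edges (n : Fin 4 → ℕ) : (K n).edgeSet.ncard =
    n 0 * n 1 + n 0 * n 2 + n 0 * n 3 + n 1 * n 2 + n 1 * n 3 + n 2 * n 3 := by
  classical
  have h1 : (K n).edgeSet.ncard = (K n).edgeFinset.card := by
    rw [Set.ncard_eq_toFinset_card']
    rfl
  have h2 := (K n).sum_degrees_eq_twice_card_edges
  have h3 : ∀ v : (Σ i : Fin 4, Fin (n i)), (K n).degree v =
      ∑ j : Fin 4, if v.1 ≠ j then n j else 0 := by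
    intro v
    have : (K n).neighborFinset v = Finset.univ.filter fun w => v.1 ≠ w.1 := by
      ext w
      simp
    rw [← SimpleGraph.card_neighborFinset_eq_degree, this, Finset.card_filter,
      Fintype.sum_sigma]
    refine Finset.sum_congr rfl fun j _ => ?_
    by_cases hj : v.1 ≠ j
    · simp [hj]
    · simp [hj]
  rw [Finset.sum_congr rfl fun v _ => h3 v, Fintype.sum_sigma] at h2
  simp only [Fin.sum_univ_four] at h2
  simp [Fin.ext_iff] at h2
  rw [h1]
  nlinarith [h2]

/-- **Main theorem.** The Divisibility Condition is sufficient for `(r, t) = (4, 3)`. -/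
theorem result : ConditionSufficient 4 3 := by
  intro n hn hd
  rw [card_edges] at hd
  -- representatives
  obtain ⟨b, hb⟩ : ∃ b : Fin 4 → ℕ, ∀ i, 1 ≤ b i ∧ b i ≤ 5 ∧ b i ≤ n i ∧ (n i - b i) % 3 = 0 ∧
      (b i ≤ 2 → n i = b i) := by
    refine ⟨fun i => if n i ≤ 5 then n i else 3 + n i % 3, fun i => ?_⟩
    have := hn i
    simp only
    split_ifs <;> omega
  have hmod : ∀ i, n i % 3 = b i % 3 := fun i => by
    have := hb i
    omega
  have hd' : (b 0 * b 1 + b 0 * b 2 + b 0 * b 3 + b 1 * b 2 + b 1 * b 3 + b 2 * b 3) % 3 = 0 := by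
    have h0 : (n 0 * n 1 + n 0 * n 2 + n 0 * n 3 + n 1 * n 2 + n 1 * n 3 + n 2 * n 3) % 3 = 0 :=
      Nat.mod_eq_zero_of_dvd hd
    rw [← h0]
    have m : ∀ i j, b i * b j ≡ n i * n j [MOD 3] := fun i j =>
      Nat.ModEq.mul (hmod i).symm (hmod j).symm
    exact (((((m 0 1).add (m 0 2)).add (m 0 3)).add (m 1 2)).add (m 1 3)).add (m 2 3)
  obtain ⟨f, hf, s, hs, hfit⟩ := cover ⟨b 0 - 1, by have := hb 0; omega⟩
    ⟨b 1 - 1, by have := hb 1; omega⟩ ⟨b 2 - 1, by have := hb 2; omega⟩
    ⟨b 3 - 1, by have := hb 3; omega⟩ (by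
      simp only
      rw [Nat.sub_add_cancel (hb 0).1, Nat.sub_add_cancel (hb 1).1, Nat.sub_add_cancel (hb 2).1,
        Nat.sub_add_cancel (hb 3).1]
      exact hd')
  have hbb : (![b 0 - 1 + 1, b 1 - 1 + 1, b 2 - 1 + 1, b 3 - 1 + 1] : Fin 4 → ℕ) = b := by
    funext i
    fin_cases i
    · exact Nat.sub_add_cancel (hb 0).1
    · exact Nat.sub_add_cancel (hb 1).1
    · exact Nat.sub_add_cancel (hb 2).1
    · exact Nat.sub_add_cancel (hb 3).1
  simp only at hfit
  rw [hbb] at hfit
  apply divisible_perm n s (perms_inj s hs)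
  have hsz : (fun i => n (s i)) = sz f (fun i => (n (s i) - f.r i) / 3) := by
    funext i
    have h1 := hb (s i)
    simp only [sz]
    rcases hfit i with ⟨-, h2, h3⟩ | ⟨-, h2, h3⟩
    · omega
    · have := h1.2.2.2.2 h3
      omega
  have gen : ∀ m : Fin 4 → ℕ, m = (fun i => n (s i)) → Divisible (K m) 3 →
      Divisible (K fun i => n (s i)) 3 := by
    intro m hm h
    subst hm
    exact h
  refine gen _ hsz.symm (fam_divisible (fams_good f hf) ?_)
  intro i hi
  rcases hfit i with ⟨h2, -⟩ | ⟨-, h2, h3⟩
  · rw [hi] at h2; exact absurd h2 (by decide)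
  · have := (hb (s i)).2.2.2.2 h3
    omega

end Pool.Agent.Results.MP_369736_co.FourPartsThreeFactors
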